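import Pool.Agent.Y441.BP.D128Bound

set_option autoImplicit false

namespace Pool.Agent.Results.MP_aca8be_co.SharperConstant

open Pool.Agent.Helper770.Crossing Filter Topology

/-- The ratio of the biplanar crossing number of the complete graph on `n` vertices and the
binomial coefficient `n` over `4`. -/
noncomputable def ratio (n : ℕ) : ℝ :=
  (biplanarCrossingNumber (⊤ : SimpleGraph (Fin n)) : ℝ) / (n.choose 4 : ℝ)

/-- `cr₂(K_n) ≤ (840125/8388608) / 24 * (n + 128) ^ 4 + 512 * (n + 128) ^ 3` for every `n`, so that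
the limit superior of the ratio is at most `840125/8388608 < 0.10016`, and no limit of the ratio
equals `7/64`. -/
theorem result :
    (∀ n : ℕ, (biplanarCrossingNumber (⊤ : SimpleGraph (Fin n)) : ℝ) ≤
      840125 / 8388608 / 24 * ((n : ℝ) + 128) ^ 4 + 512 * ((n : ℝ) + 128) ^ 3) ∧
    (∀ ε : ℝ, 0 < ε → ∀ᶠ n : ℕ in atTop, ratio n ≤ 840125 / 8388608 + ε) ∧
    (∀ c : ℝ, Tendsto ratio atTop (𝓝 c) → c ≤ 840125 / 8388608 ∧ c < 10016 / 100000 ∧ c < 7 / 64) ∧
    ¬ Tendsto ratio atTop (𝓝 (7 / 64)) := by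
  have h0 : ∀ n : ℕ, (biplanarCrossingNumber (⊤ : SimpleGraph (Fin n)) : ℝ) ≤
      840125 / 8388608 / 24 * ((n : ℝ) + 128) ^ 4 + 512 * ((n : ℝ) + 128) ^ 3 := by
    intro n
    have h := Pool.Agent.Y441.BP.upper_of_blow (m := 128) (by norm_num)
      Pool.Agent.Y441.BP.D128Bound.bound n
    refine h.trans (le_of_eq ?_)
    norm_num
  have h1 : ∀ ε : ℝ, 0 < ε → ∀ᶠ n : ℕ in atTop, ratio n ≤ 840125 / 8388608 + ε :=
    fun ε hε => Pool.Agent.Y441.BP.limit_of_upper (m := 128)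
      (fun n => (h0 n).trans (le_of_eq (by norm_num))) ε hε
  have h2 : ∀ c : ℝ, Tendsto ratio atTop (𝓝 c) →
      c ≤ 840125 / 8388608 ∧ c < 10016 / 100000 ∧ c < 7 / 64 := by
    intro c hc
    have h3 : c ≤ 840125 / 8388608 :=
      le_of_forall_pos_le_add fun ε hε => le_of_tendsto hc (h1 ε hε)
    exact ⟨h3, h3.trans_lt (by norm_num), h3.trans_lt (by norm_num)⟩
  exact ⟨h0, h1, h2, fun h => lt_irrefl _ (h2 _ h).2.2⟩

end Pool.Agent.Results.MP_aca8be_co.SharperConstant
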